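import Pool.Agent.Helper12_RN.Main

set_option autoImplicit false

/-! Sizes of the numbers occurring in the test. -/

namespace Pool.Agent.Helper12_RN

open MvPolynomial

variable {σ : Type}

/-- The sum of the absolute values of the coefficients. -/
noncomputable def len (f : MvPolynomial σ ℤ) : ℕ := ∑ s ∈ f.support, (coeff s f).natAbs

theorem len_eq (f : MvPolynomial σ ℤ) (T : Finset (σ →₀ ℕ)) (h : f.support ⊆ T) :
    len f = ∑ s ∈ T, (coeff s f).natAbs := by
  apply Finset.sum_subset h
  intro s _ hs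
  rw [notMem_support_iff.1 hs]; rfl

theorem len_add (f g : MvPolynomial σ ℤ) : len (f + g) ≤ len f + len g := by
  classical
  rw [len_eq (f + g) (f.support ∪ g.support) support_add,
    len_eq f (f.support ∪ g.support) Finset.subset_union_left,
    len_eq g (f.support ∪ g.support) Finset.subset_union_right, ← Finset.sum_add_distrib]
  apply Finset.sum_le_sum
  intro s _
  rw [coeff_add]
  exact Int.natAbs_add_le _ _

theorem len_zero : len (0 : MvPolynomial σ ℤ) = 0 := by unfold len; simp

theorem len_sum {ι : Type} (S : Finset ι) (f : ι → MvPolynomial σ ℤ) :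
    len (∑ i ∈ S, f i) ≤ ∑ i ∈ S, len (f i) := by
  classical
  induction S using Finset.induction_on with
  | empty => simp [len_zero]
  | insert a S ha ih =>
    rw [Finset.sum_insert ha, Finset.sum_insert ha]
    exact (len_add _ _).trans (Nat.add_le_add_left ih _)

theorem len_monomial (α : σ →₀ ℕ) (c : ℤ) : len (monomial α c) = c.natAbs := by
  classical
  rw [len_eq (monomial α c) {α} support_monomial_subset, Finset.sum_singleton, coeff_monomial,
    if_pos rfl]

theorem len_mul (f g : MvPolynomial σ ℤ) : len (f * g) ≤ len f * len g := by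
  classical
  conv_lhs => rw [f.as_sum, g.as_sum]
  rw [Finset.sum_mul_sum]
  refine (len_sum _ _).trans ?_
  rw [len, len, Finset.sum_mul_sum]
  apply Finset.sum_le_sum
  intro s _
  refine (len_sum _ _).trans ?_
  apply Finset.sum_le_sum
  intro t _
  rw [monomial_mul, len_monomial, Int.natAbs_mul]

theorem len_one : len (1 : MvPolynomial σ ℤ) = 1 := by
  have : (1 : MvPolynomial σ ℤ) = monomial 0 1 := rfl
  rw [this, len_monomial]; rfl

theorem len_pow (f : MvPolynomial σ ℤ) (n : ℕ) : len (f ^ n) ≤ len f ^ n := by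
  induction n with
  | zero => rw [pow_zero, pow_zero, len_one]
  | succ n ih =>
    rw [pow_succ, pow_succ]
    exact (len_mul _ _).trans (Nat.mul_le_mul_right _ ih)

theorem len_prod {ι : Type} (S : Finset ι) (f : ι → MvPolynomial σ ℤ) :
    len (∏ i ∈ S, f i) ≤ ∏ i ∈ S, len (f i) := by
  classical
  induction S using Finset.induction_on with
  | empty => rw [Finset.prod_empty, Finset.prod_empty, len_one]
  | insert a S ha ih =>
    rw [Finset.prod_insert ha, Finset.prod_insert ha]
    exact (len_mul _ _).trans (Nat.mul_le_mul_left _ ih)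

theorem coeff_le_len (f : MvPolynomial σ ℤ) (s : σ →₀ ℕ) : (coeff s f).natAbs ≤ len f := by
  classical
  by_cases h : s ∈ f.support
  · exact Finset.single_le_sum (f := fun s => (coeff s f).natAbs) (fun _ _ => Nat.zero_le _) h
  · rw [notMem_support_iff.1 h]; exact Nat.zero_le _

theorem inner_le (f g : MvPolynomial σ ℤ) : |inner f g| ≤ (len f * len g : ℕ) := by
  unfold inner
  refine (Finset.abs_sum_le_sum_abs _ _).trans ?_
  rw [len, Finset.sum_mul]
  push_cast
  apply Finset.sum_le_sum
  intro s _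
  rw [abs_mul]
  have h1 : |coeff s g| ≤ (len g : ℤ) := by
    rw [Int.abs_eq_natAbs]; exact_mod_cast coeff_le_len g s
  exact mul_le_mul_of_nonneg_left h1 (abs_nonneg _)

namespace Layer

/-- At most `k` terms, at most `m` base polynomials, total degrees of the base polynomials and of
the cofactors at most `d`, and lengths at most `2 ^ b`. -/
def Small (L : Layer σ ℤ) (k m d b : ℕ) : Prop :=
  L.K ≤ k ∧ L.m ≤ m ∧ (∀ u, (L.cof u).totalDegree ≤ d) ∧ (∀ j, (L.base j).totalDegree ≤ d) ∧
  (∀ u, ∏ C ∈ Finset.range (L.B + 1), max 1 (len (L.A u C)) ≤ 2 ^ b) ∧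
  ∀ j, ∑ C ∈ Finset.range (L.B + 1), len (L.p j C) ≤ 2 ^ b

end Layer

/-- A bound, polynomial in `k`, `m`, `d`, for the sum of the reduced exponents of a term. -/
def R (k m d : ℕ) : ℕ := m * (k * (k * k * (m * d) + k * d))

namespace Layer

variable (L : Layer σ ℤ)

theorem D_le {k m d b : ℕ} (h : L.Small k m d b) : L.D ≤ k * k * (m * d) + k * d := by
  obtain ⟨hK, hm, hA, hp, -, -⟩ := h
  unfold D
  refine Nat.add_le_add (Nat.mul_le_mul (Nat.mul_le_mul (by omega) (by omega)) ?_) ?_
  · refine (Finset.sum_le_sum (fun j _ => hp j)).trans ?_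
    rw [Finset.sum_const, Finset.card_univ, Fintype.card_fin, smul_eq_mul]
    exact Nat.mul_le_mul_right _ hm
  · refine (Finset.sum_le_sum (fun j _ => hA j)).trans ?_
    rw [Finset.sum_const, Finset.card_univ, Fintype.card_fin, smul_eq_mul]
    exact Nat.mul_le_mul_right _ hK

theorem sum_red_le (hV : L.Valid) {k m d b : ℕ} (h : L.Small k m d b) (u : Fin L.K) :
    ∑ j, L.red u j ≤ R k m d := by
  have h1 : ∀ j, L.red u j ≤ k * (k * k * (m * d) + k * d) := by
    intro j
    refine (L.red_le_int hV.2 u j).trans (Nat.mul_le_mul ?_ (L.D_le h))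
    have := h.1
    omega
  refine (Finset.sum_le_sum (fun j _ => h1 j)).trans ?_
  rw [Finset.sum_const, Finset.card_univ, Fintype.card_fin, smul_eq_mul]
  exact Nat.mul_le_mul_right _ h.2.1

theorem prod_red_le (hV : L.Valid) {k m d b : ℕ} (h : L.Small k m d b) (u : Fin L.K) (c : ℕ)
    (hc : (Finset.univ.filter fun j => L.e u j ≠ 0).card ≤ c) :
    ∏ j, (L.red u j + 1) ≤ (R k m d + 1) ^ c := by
  have h1 : ∀ j, L.red u j ≤ R k m d := fun j =>
    (Finset.single_le_sum (f := fun j => L.red u j) (fun _ _ => Nat.zero_le _)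
      (Finset.mem_univ j)).trans (L.sum_red_le hV h u)
  have h2 : ∏ j, (L.red u j + 1) = ∏ j with L.e u j ≠ 0, (L.red u j + 1) := by
    symm
    apply Finset.prod_subset (Finset.filter_subset _ _)
    intro j _ hj
    have : L.e u j = 0 := by
      by_contra h0
      exact hj (by simp [h0])
    unfold red
    rw [this]; simp
  rw [h2]
  refine (Finset.prod_le_pow_card _ _ (R k m d + 1) (fun j _ => Nat.succ_le_succ (h1 j))).trans ?_
  exact Nat.pow_le_pow_right (Nat.succ_pos _) hc

theorem len_part (L : Layer σ ℤ) {k m d b : ℕ} (h : L.Small k m d b) (u : Fin L.K) (C : ℕ)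
    (hC : C ≤ L.B) (r : Fin L.m → ℕ) : len (L.part u C r) ≤ 2 ^ (b * (1 + ∑ j, r j)) := by
  unfold part
  have h1 : len (∏ c ∈ Finset.range (C + 1), L.A u c) ≤ 2 ^ b := by
    refine (len_prod _ _).trans (le_trans ?_ (h.2.2.2.2.1 u))
    refine (Finset.prod_le_prod' (fun c _ => le_max_right 1 (len (L.A u c)))).trans ?_
    exact Finset.prod_le_prod_of_subset_of_one_le'
      (Finset.range_subset_range.2 (by omega)) (fun c _ _ => le_max_left _ _)
  have h2 : ∀ j, len ((∑ c ∈ Finset.range (C + 1), L.p j c) ^ r j) ≤ 2 ^ (b * r j) := by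
    intro j
    refine (len_pow _ _).trans ?_
    rw [pow_mul]
    refine Nat.pow_le_pow_left ?_ _
    refine (len_sum _ _).trans (le_trans ?_ (h.2.2.2.2.2 j))
    exact Finset.sum_le_sum_of_subset (Finset.range_subset_range.2 (by omega))
  refine (len_mul _ _).trans ?_
  rw [mul_add, pow_add, mul_one]
  refine Nat.mul_le_mul h1 ((len_prod _ _).trans ?_)
  refine (Finset.prod_le_prod' (fun j _ => h2 j)).trans ?_
  rw [Finset.prod_pow_eq_pow_sum, Finset.mul_sum]

theorem gramB_le (L : Layer σ ℤ) (hV : L.Valid) {k m d b : ℕ} (h : L.Small k m d b)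
    (u u' : Fin L.K) (C : ℕ) (hC : C ≤ L.B) (r r' : Fin L.m → ℕ) (hr : r ≤ L.red u)
    (hr' : r' ≤ L.red u') : |L.gramB u u' C r r'| ≤ 2 ^ (2 * b * (1 + R k m d)) := by
  rw [L.gramB_eq hV.1 u u' C hC]
  refine (inner_le _ _).trans ?_
  have h1 : ∀ (v : Fin L.K) (q : Fin L.m → ℕ), q ≤ L.red v →
      len (L.part v C q) ≤ 2 ^ (b * (1 + R k m d)) := by
    intro v q hq
    refine (L.len_part h v C hC q).trans (Nat.pow_le_pow_right (by omega) ?_)
    refine Nat.mul_le_mul_left _ (Nat.add_le_add_left ?_ _)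
    exact (Finset.sum_le_sum (fun j _ => hq j)).trans (L.sum_red_le hV h v)
  have h2 := Nat.mul_le_mul (h1 u r hr) (h1 u' r' hr')
  rw [← pow_add] at h2
  have h3 : b * (1 + R k m d) + b * (1 + R k m d) = 2 * b * (1 + R k m d) := by ring
  rw [h3] at h2
  exact_mod_cast h2

theorem gram_le (L : Layer σ ℤ) (hV : L.Valid) {k m d b : ℕ} (h : L.Small k m d b)
    (u u' : Fin L.K) : |L.gram u u'| ≤ 2 ^ (2 * b * (1 + R k m d)) := by
  classical
  unfold gram
  split_ifs
  · exact L.gramB_le hV h u u' L.B le_rfl _ _ le_rfl le_rfl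
  · rw [abs_zero]; positivity

end Layer

namespace Net

/-- The layers of a network. -/
def layers : {w : ℕ} → Net σ w → List (Layer σ ℤ)
  | _, leaf L => [L]
  | _, node _ N N' => N.layers ++ N'.layers

/-- The number of leaves and inner nodes. -/
def count : {w : ℕ} → Net σ w → ℕ
  | _, leaf _ => 1
  | _, node _ N N' => N.count + N'.count + 1

/-- At the inner nodes there are at most `k` inputs from each child and the coefficients are at most
`2 ^ b` in absolute value. -/
def Small (k b : ℕ) : {w : ℕ} → Net σ w → Prop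
  | _, leaf _ => True
  | _, node (a := x) (b := y) M N N' =>
      x ≤ k ∧ y ≤ k ∧ (∀ c i j, |M c i j| ≤ 2 ^ b) ∧ N.Small k b ∧ N'.Small k b

theorem valid_of_mem : ∀ {w : ℕ} (N : Net σ w), N.ReadOnce → ∀ L ∈ N.layers, L.Valid
  | _, leaf L, h, L', hL' => by
    rw [layers, List.mem_singleton] at hL'
    rw [hL']; exact h
  | _, node _ N N', h, L', hL' => by
    rw [layers, List.mem_append] at hL'
    rcases hL' with h' | h'
    · exact N.valid_of_mem h.1 L' h'
    · exact N'.valid_of_mem h.2.1 L' h'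

theorem gram_le (k m d b : ℕ) : ∀ {w : ℕ} (N : Net σ w), N.ReadOnce →
    (∀ L ∈ N.layers, L.Small k m d b) → N.Small k b →
    ∀ u u', |N.gram u u'| ≤ 2 ^ (N.count * (2 * b * (1 + R k m d) + 4 * k))
  | _, leaf L, hN, hL, _ => by
    intro u u'
    refine (L.gram_le hN (hL L (by simp [layers])) u u').trans ?_
    exact pow_le_pow_right₀ (by norm_num) (by rw [count]; omega)
  | _, node (a := x) (b := y) M N N', hN, hL, hS => by
    intro c c'
    have h1 := N.gram_le k m d b hN.1 (fun L hl => hL L (by simp [layers, hl])) hS.2.2.2.1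
    have h2 := N'.gram_le k m d b hN.2.1 (fun L hl => hL L (by simp [layers, hl])) hS.2.2.2.2
    have hk : (k : ℤ) ≤ 2 ^ k := by exact_mod_cast (Nat.lt_two_pow_self (n := k)).le
    have hx : (x : ℤ) ≤ 2 ^ k := le_trans (by exact_mod_cast hS.1) hk
    have hy : (y : ℤ) ≤ 2 ^ k := le_trans (by exact_mod_cast hS.2.1) hk
    set Q := 2 * b * (1 + R k m d) + 4 * k with hQ
    have h3 : ∀ i j i' j', |M c i j * M c' i' j' * N.gram i i' * N'.gram j j'|
        ≤ 2 ^ b * 2 ^ b * 2 ^ (N.count * Q) * 2 ^ (N'.count * Q) := by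
      intro i j i' j'
      rw [abs_mul, abs_mul, abs_mul]
      gcongr
      · exact hS.2.2.1 c i j
      · exact hS.2.2.1 c' i' j'
      · exact h1 i i'
      · exact h2 j j'
    have h4 : |∑ i, ∑ j, ∑ i', ∑ j', M c i j * M c' i' j' * N.gram i i' * N'.gram j j'|
        ≤ (x : ℤ) * (y * (x * (y * (2 ^ b * 2 ^ b * 2 ^ (N.count * Q) * 2 ^ (N'.count * Q))))) := by
      have aux : ∀ (n : ℕ) (f : Fin n → ℤ) (B : ℤ), (∀ i, |f i| ≤ B) → |∑ i, f i| ≤ n * B := by
        intro n f B hf
        refine (Finset.abs_sum_le_sum_abs _ _).trans ?_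
        refine (Finset.sum_le_sum (fun i _ => hf i)).trans ?_
        simp
      exact aux _ _ _ fun i => aux _ _ _ fun j => aux _ _ _ fun i' => aux _ _ _ fun j' =>
        h3 i j i' j'
    refine h4.trans ?_
    have h5 : (x : ℤ) * (y * (x * (y * (2 ^ b * 2 ^ b * 2 ^ (N.count * Q) * 2 ^ (N'.count * Q)))))
        ≤ 2 ^ k * (2 ^ k * (2 ^ k * (2 ^ k * (2 ^ b * 2 ^ b * 2 ^ (N.count * Q)
          * 2 ^ (N'.count * Q))))) := by
      gcongr
    refine h5.trans ?_
    have h6 : (2 : ℤ) ^ k * (2 ^ k * (2 ^ k * (2 ^ k * (2 ^ b * 2 ^ b * 2 ^ (N.count * Q)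
          * 2 ^ (N'.count * Q))))) = 2 ^ (4 * k + 2 * b + N.count * Q + N'.count * Q) := by
      rw [show 4 * k + 2 * b + N.count * Q + N'.count * Q
        = k + (k + (k + (k + (b + b + N.count * Q + N'.count * Q)))) by ring]
      simp only [pow_add]
    rw [h6]
    apply pow_le_pow_right₀ (by norm_num)
    rw [count]
    have : 4 * k + 2 * b ≤ Q := by
      rw [hQ]
      nlinarith [Nat.zero_le (b * R k m d)]
    nlinarith

end Net

end Pool.Agent.Helper12_RN
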