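import Pool.Agent.Helper12_RN.Defs

set_option autoImplicit false

/-! The inner product of polynomials, block by block. -/

namespace Pool.Agent.Helper12_RN

open MvPolynomial

variable {σ : Type}

theorem inner_eq (f g : MvPolynomial σ ℤ) (T : Finset (σ →₀ ℕ)) (h : f.support ⊆ T) :
    inner f g = ∑ s ∈ T, coeff s f * coeff s g := by
  apply Finset.sum_subset h
  intro s _ hs
  rw [notMem_support_iff.1 hs]; ring

theorem inner_add_left (f f' g : MvPolynomial σ ℤ) :
    inner (f + f') g = inner f g + inner f' g := by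
  classical
  rw [inner_eq (f + f') g (f.support ∪ f'.support) support_add,
    inner_eq f g (f.support ∪ f'.support) Finset.subset_union_left,
    inner_eq f' g (f.support ∪ f'.support) Finset.subset_union_right, ← Finset.sum_add_distrib]
  apply Finset.sum_congr rfl
  intro s _
  rw [coeff_add]; ring

theorem inner_add_right (f g g' : MvPolynomial σ ℤ) :
    inner f (g + g') = inner f g + inner f g' := by
  unfold inner
  rw [← Finset.sum_add_distrib]
  apply Finset.sum_congr rfl
  intro s _
  rw [coeff_add]; ring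

theorem inner_zero_right (f : MvPolynomial σ ℤ) : inner f 0 = 0 := by
  unfold inner; simp

theorem inner_zero_left (g : MvPolynomial σ ℤ) : inner 0 g = 0 := by
  unfold inner; simp

theorem inner_C_mul_left (c : ℤ) (f g : MvPolynomial σ ℤ) : inner (C c * f) g = c * inner f g := by
  rw [inner_eq (C c * f) g f.support (by
    intro s hs
    rw [mem_support_iff, coeff_C_mul] at hs
    rw [mem_support_iff]
    exact right_ne_zero_of_mul hs)]
  unfold inner
  rw [Finset.mul_sum]
  apply Finset.sum_congr rfl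
  intro s _
  rw [coeff_C_mul]; ring

theorem inner_C_mul_right (c : ℤ) (f g : MvPolynomial σ ℤ) :
    inner f (C c * g) = c * inner f g := by
  unfold inner
  rw [Finset.mul_sum]
  apply Finset.sum_congr rfl
  intro s _
  rw [coeff_C_mul]; ring

theorem inner_sum_left {ι : Type} (S : Finset ι) (f : ι → MvPolynomial σ ℤ)
    (g : MvPolynomial σ ℤ) : inner (∑ i ∈ S, f i) g = ∑ i ∈ S, inner (f i) g := by
  classical
  induction S using Finset.induction_on with
  | empty => simp [inner_zero_left]
  | insert a S ha ih => rw [Finset.sum_insert ha, Finset.sum_insert ha, inner_add_left, ih]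

theorem inner_sum_right {ι : Type} (S : Finset ι) (f : MvPolynomial σ ℤ)
    (g : ι → MvPolynomial σ ℤ) : inner f (∑ i ∈ S, g i) = ∑ i ∈ S, inner f (g i) := by
  classical
  induction S using Finset.induction_on with
  | empty => simp [inner_zero_right]
  | insert a S ha ih => rw [Finset.sum_insert ha, Finset.sum_insert ha, inner_add_right, ih]

theorem inner_monomial (α : σ →₀ ℕ) (c : ℤ) (g : MvPolynomial σ ℤ) :
    inner (monomial α c) g = c * coeff α g := by
  classical
  rw [inner_eq (monomial α c) g {α} support_monomial_subset]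
  rw [Finset.sum_singleton, coeff_monomial, if_pos rfl]

theorem coeff_mul_disjoint (V : Set σ) (g g' : MvPolynomial σ ℤ)
    (hg : ∀ s ∈ g.vars, s ∈ V) (hg' : ∀ s ∈ g'.vars, s ∉ V) (α α' : σ →₀ ℕ)
    (hα : ∀ s ∈ α.support, s ∈ V) (hα' : ∀ s ∈ α'.support, s ∉ V) :
    coeff (α + α') (g * g') = coeff α g * coeff α' g' := by
  classical
  rw [coeff_mul]
  apply Finset.sum_eq_single (α, α')
  · rintro ⟨β, β'⟩ hβ hne
    rw [Finset.HasAntidiagonal.mem_antidiagonal] at hβ
    by_contra h
    apply hne
    have h1 : β ∈ g.support := mem_support_iff.2 (left_ne_zero_of_mul h)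
    have h2 : β' ∈ g'.support := mem_support_iff.2 (right_ne_zero_of_mul h)
    have h3 : ∀ s, s ∉ V → β s = 0 := by
      intro s hs
      by_contra h0
      exact hs (hg s ((mem_vars_iff_mem_support s).2 ⟨β, h1, Finsupp.mem_support_iff.2 h0⟩))
    have h4 : ∀ s, s ∈ V → β' s = 0 := by
      intro s hs
      by_contra h0
      exact hg' s ((mem_vars_iff_mem_support s).2 ⟨β', h2, Finsupp.mem_support_iff.2 h0⟩) hs
    have h5 : ∀ s, s ∉ V → α s = 0 := by
      intro s hs
      by_contra h0
      exact hs (hα s (Finsupp.mem_support_iff.2 h0))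
    have h6 : ∀ s, s ∈ V → α' s = 0 := by
      intro s hs
      by_contra h0
      exact hα' s (Finsupp.mem_support_iff.2 h0) hs
    have h7 : ∀ s, β s + β' s = α s + α' s := fun s => DFunLike.congr_fun hβ s
    rw [Prod.mk.injEq]
    constructor
    · ext s
      by_cases hs : s ∈ V
      · have := h7 s
        rw [h4 s hs, h6 s hs] at this
        simpa using this
      · rw [h3 s hs, h5 s hs]
    · ext s
      by_cases hs : s ∈ V
      · rw [h4 s hs, h6 s hs]
      · have := h7 s
        rw [h3 s hs, h5 s hs] at this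
        simpa using this
  · intro h
    exact absurd (by rw [Finset.HasAntidiagonal.mem_antidiagonal]) h

theorem inner_mul (V : Set σ) (f g f' g' : MvPolynomial σ ℤ)
    (hf : ∀ s ∈ f.vars, s ∈ V) (hg : ∀ s ∈ g.vars, s ∈ V)
    (hf' : ∀ s ∈ f'.vars, s ∉ V) (hg' : ∀ s ∈ g'.vars, s ∉ V) :
    inner (f * f') (g * g') = inner f g * inner f' g' := by
  classical
  conv_lhs => rw [f.as_sum, f'.as_sum]
  rw [Finset.sum_mul_sum, inner_sum_left]
  conv_rhs => rw [inner, inner, Finset.sum_mul_sum]
  apply Finset.sum_congr rfl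
  intro α hα
  rw [inner_sum_left]
  apply Finset.sum_congr rfl
  intro α' hα'
  rw [monomial_mul, inner_monomial, coeff_mul_disjoint V g g' hg hg']
  · ring
  · intro s hs
    exact hf s ((mem_vars_iff_mem_support s).2 ⟨α, hα, hs⟩)
  · intro s hs
    exact hf' s ((mem_vars_iff_mem_support s).2 ⟨α', hα', hs⟩)

namespace Layer

variable (L : Layer σ ℤ)

/-- The `u`-th term with exponents `r` and only the blocks `0, ..., C`. -/
noncomputable def part (u : Fin L.K) (C : ℕ) (r : Fin L.m → ℕ) : MvPolynomial σ ℤ :=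
  (∏ c ∈ Finset.range (C + 1), L.A u c) * ∏ j, (∑ c ∈ Finset.range (C + 1), L.p j c) ^ r j

/-- The factor of one block. -/
noncomputable def one (u : Fin L.K) (C : ℕ) (r : Fin L.m → ℕ) : MvPolynomial σ ℤ :=
  L.A u C * ∏ j, L.p j C ^ r j

theorem part_succ (u : Fin L.K) (C : ℕ) (r : Fin L.m → ℕ) :
    L.part u (C + 1) r = ∑ a ∈ Fintype.piFinset fun j => Finset.range (r j + 1),
      MvPolynomial.C (∏ j, ((r j).choose (a j) : ℤ)) * (L.one u (C + 1) a * L.part u C (r - a)) := by
  classical
  unfold part one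
  rw [Finset.prod_range_succ]
  have h1 : ∏ j, (∑ c ∈ Finset.range (C + 1 + 1), L.p j c) ^ r j
      = ∑ a ∈ Fintype.piFinset fun j => Finset.range (r j + 1),
        ∏ j, (L.p j (C + 1) ^ a j * (∑ c ∈ Finset.range (C + 1), L.p j c) ^ (r j - a j) *
          ((r j).choose (a j) : MvPolynomial σ ℤ)) := by
    rw [← Finset.prod_univ_sum (t := fun j => Finset.range (r j + 1)) (f := fun j x =>
      (L.p j (C + 1) ^ x * (∑ c ∈ Finset.range (C + 1), L.p j c) ^ (r j - x) *
          ((r j).choose x : MvPolynomial σ ℤ)))]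
    apply Finset.prod_congr rfl
    intro j _
    rw [Finset.sum_range_succ _ (C + 1), add_comm, add_pow]
  rw [h1, Finset.mul_sum]
  apply Finset.sum_congr rfl
  intro a _
  rw [Finset.prod_mul_distrib, Finset.prod_mul_distrib, map_prod]
  have h2 : ∀ j, (MvPolynomial.C ((r j).choose (a j) : ℤ) : MvPolynomial σ ℤ)
      = ((r j).choose (a j) : MvPolynomial σ ℤ) := by
    intro j; simp
  simp only [h2, Pi.sub_apply]
  ring

theorem vars_one (u : Fin L.K) (C : ℕ) (r : Fin L.m → ℕ) (s : σ) (hs : s ∈ (L.one u C r).vars) :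
    s ∈ L.block C := by
  classical
  unfold one at hs
  rcases Finset.mem_union.1 (vars_mul _ _ hs) with h | h
  · exact Or.inl ⟨u, h⟩
  · obtain ⟨j, _, hj⟩ := Finset.mem_biUnion.1 (vars_prod _ h)
    exact Or.inr ⟨j, vars_pow _ _ hj⟩

theorem vars_part (u : Fin L.K) (C : ℕ) (r : Fin L.m → ℕ) (s : σ)
    (hs : s ∈ (L.part u C r).vars) : ∃ c ≤ C, s ∈ L.block c := by
  classical
  unfold part at hs
  rcases Finset.mem_union.1 (vars_mul _ _ hs) with h | h
  · obtain ⟨c, hc, hc'⟩ := Finset.mem_biUnion.1 (vars_prod _ h)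
    exact ⟨c, Nat.lt_succ_iff.1 (Finset.mem_range.1 hc), Or.inl ⟨u, hc'⟩⟩
  · obtain ⟨j, _, hj⟩ := Finset.mem_biUnion.1 (vars_prod _ h)
    obtain ⟨c, hc, hc'⟩ := Finset.mem_biUnion.1 (vars_sum_subset _ _ (vars_pow _ _ hj))
    exact ⟨c, Nat.lt_succ_iff.1 (Finset.mem_range.1 hc), Or.inr ⟨j, hc'⟩⟩

theorem gramB_eq (hV : ∀ C ≤ L.B, ∀ C' ≤ L.B, C ≠ C' → Disjoint (L.block C) (L.block C'))
    (u u' : Fin L.K) (C : ℕ) (hC : C ≤ L.B) (r r' : Fin L.m → ℕ) :
    L.gramB u u' C r r' = inner (L.part u C r) (L.part u' C r') := by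
  classical
  induction C generalizing r r' with
  | zero =>
    rw [gramB]
    unfold part
    simp
  | succ C ih =>
    rw [gramB, part_succ, part_succ, inner_sum_left]
    apply Finset.sum_congr rfl
    intro a _
    rw [inner_sum_right]
    apply Finset.sum_congr rfl
    intro b _
    rw [inner_C_mul_left, inner_C_mul_right, ih (by omega)]
    rw [inner_mul (L.block (C + 1)) _ _ _ _ (L.vars_one u _ _) (L.vars_one u' _ _)]
    · unfold one
      ring
    · intro s hs hs'
      obtain ⟨c, hc, hc'⟩ := L.vars_part u C _ s hs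
      exact Set.disjoint_left.1 (hV c (by omega) (C + 1) hC (by omega)) hc' hs'
    · intro s hs hs'
      obtain ⟨c, hc, hc'⟩ := L.vars_part u' C _ s hs
      exact Set.disjoint_left.1 (hV c (by omega) (C + 1) hC (by omega)) hc' hs'

end Layer

end Pool.Agent.Helper12_RN
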