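import Mathlib

set_option autoImplicit false

/-! Read-once networks whose leaves are sums of products of powers with binary exponents. -/

namespace Pool.Agent.Helper12_RN

open MvPolynomial

/-- `K` terms `(∏ C, A u C) * ∏ j, (∑ C, p j C) ^ e u j` with polynomials `A u C`, `p j C`,
where `C` runs through the blocks `0, ..., B`, and the exponents are written in binary. -/
structure Layer (σ k : Type) [CommSemiring k] where
  /-- number of terms -/
  K : ℕ
  /-- number of base polynomials -/
  m : ℕ
  /-- index of the last block -/
  B : ℕ
  /-- cofactors -/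
  A : Fin K → ℕ → MvPolynomial σ k
  /-- parts of the base polynomials -/
  p : Fin m → ℕ → MvPolynomial σ k
  /-- exponents -/
  e : Fin K → Fin m → ℕ

namespace Layer

variable {σ k : Type} [CommSemiring k] (L : Layer σ k)

/-- The cofactor of the `u`-th term. -/
noncomputable def cof (u : Fin L.K) : MvPolynomial σ k := ∏ C ∈ Finset.range (L.B + 1), L.A u C

/-- The `j`-th base polynomial. -/
noncomputable def base (j : Fin L.m) : MvPolynomial σ k := ∑ C ∈ Finset.range (L.B + 1), L.p j C

/-- The `u`-th term. -/
noncomputable def g (u : Fin L.K) : MvPolynomial σ k := L.cof u * ∏ j, L.base j ^ L.e u j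

/-- `(K-1)(K-2) ∑ deg base_j + ∑ deg cof_u`; it does not depend on the exponents. -/
noncomputable def D : ℕ :=
  (L.K - 1) * (L.K - 2) * (∑ j, (L.base j).totalDegree) + ∑ u, (L.cof u).totalDegree

/-- Degree of the part of the power product of term `u` that is not in the one of term `u'`. -/
noncomputable def gap (u u' : Fin L.K) : ℕ :=
  ∑ j, (L.e u j - L.e u' j) * (L.base j).totalDegree

/-- Two terms are close if both gaps are at most `D`. -/
def Close (u u' : Fin L.K) : Prop := L.gap u u' ≤ L.D ∧ L.gap u' u ≤ L.D

/-- Two terms are in the same cluster if they are joined by a chain of close terms. -/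
def Same : Fin L.K → Fin L.K → Prop := Relation.ReflTransGen L.Close

/-- The smallest exponent of `base j` in the cluster of term `u`. -/
noncomputable def low (u : Fin L.K) (j : Fin L.m) : ℕ := sInf {x | ∃ u', L.Same u u' ∧ L.e u' j = x}

/-- The exponent of `base j` in term `u` after division by the common power product of the
cluster. -/
noncomputable def red (u : Fin L.K) (j : Fin L.m) : ℕ := L.e u j - L.low u j

/-- The `u`-th term with reduced exponents. -/
noncomputable def h (u : Fin L.K) : MvPolynomial σ k := L.cof u * ∏ j, L.base j ^ L.red u j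

/-- The variables of a block. -/
def block (C : ℕ) : Set σ := {s | (∃ u, s ∈ (L.A u C).vars) ∨ ∃ j, s ∈ (L.p j C).vars}

/-- All variables of the layer. -/
def vars : Set σ := {s | ∃ C ≤ L.B, s ∈ L.block C}

/-- The same layer with the coefficients mapped to another ring. -/
noncomputable abbrev map {k' : Type} [CommSemiring k'] (φ : k →+* k') : Layer σ k' where
  K := L.K
  m := L.m
  B := L.B
  A u C := MvPolynomial.map φ (L.A u C)
  p j C := MvPolynomial.map φ (L.p j C)
  e := L.e

/-- The base polynomials are nonconstant and pairwise coprime. -/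
def Coprime : Prop :=
  (∀ j, 1 ≤ (L.base j).totalDegree) ∧ Pairwise fun i j => IsRelPrime (L.base i) (L.base j)

end Layer

/-! ### Layers with integer coefficients -/

/-- The inner product of the coefficient vectors. -/
noncomputable def inner {σ : Type} (f g : MvPolynomial σ ℤ) : ℤ :=
  ∑ s ∈ f.support, coeff s f * coeff s g

namespace Layer

variable {σ : Type} (L : Layer σ ℤ)

/-- Inner products of the terms `u` and `u'` with exponents `r` and `r'` and all blocks after the
given one deleted, computed block by block with the binomial theorem. -/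
noncomputable def gramB (u u' : Fin L.K) : ℕ → (Fin L.m → ℕ) → (Fin L.m → ℕ) → ℤ
  | 0, r, r' => inner (L.A u 0 * ∏ j, L.p j 0 ^ r j) (L.A u' 0 * ∏ j, L.p j 0 ^ r' j)
  | C + 1, r, r' => ∑ a ∈ Fintype.piFinset fun j => Finset.range (r j + 1),
      ∑ b ∈ Fintype.piFinset fun j => Finset.range (r' j + 1),
        (∏ j, ((r j).choose (a j) : ℤ)) * (∏ j, ((r' j).choose (b j) : ℤ)) *
        inner (L.A u (C + 1) * ∏ j, L.p j (C + 1) ^ a j)
          (L.A u' (C + 1) * ∏ j, L.p j (C + 1) ^ b j) *
        gramB u u' C (r - a) (r' - b)

open Classical in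
/-- Gram matrix of the reduced terms; `0` for terms in different clusters. -/
noncomputable def gram (u u' : Fin L.K) : ℤ :=
  if L.Same u u' then L.gramB u u' L.B (L.red u) (L.red u') else 0

/-- The blocks have disjoint sets of variables; the base polynomials are nonconstant and pairwise
coprime over `ℚ`. -/
def Valid : Prop :=
  (∀ C ≤ L.B, ∀ C' ≤ L.B, C ≠ C' → Disjoint (L.block C) (L.block C')) ∧
  (L.map (Int.castRingHom ℚ)).Coprime

end Layer

/-- A network with `w` outputs: a binary tree whose leaves are layers and whose inner nodes combine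
the outputs of the two children bilinearly. -/
inductive Net (σ : Type) : ℕ → Type
  | leaf (L : Layer σ ℤ) : Net σ L.K
  | node {a b w : ℕ} (M : Fin w → Fin a → Fin b → ℤ) (N : Net σ a) (N' : Net σ b) : Net σ w

namespace Net

variable {σ : Type}

/-- The computed polynomials. -/
noncomputable def poly : {w : ℕ} → Net σ w → Fin w → MvPolynomial σ ℤ
  | _, leaf L => L.g
  | _, node M N N' => fun c => ∑ a, ∑ b, C (M c a b) * N.poly a * N'.poly b

/-- All variables of the network. -/
def vars : {w : ℕ} → Net σ w → Set σ
  | _, leaf L => L.vars
  | _, node _ N N' => N.vars ∪ N'.vars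

/-- Read-once: different leaves have disjoint sets of variables; the layers are valid. -/
def ReadOnce : {w : ℕ} → Net σ w → Prop
  | _, leaf L => L.Valid
  | _, node _ N N' => N.ReadOnce ∧ N'.ReadOnce ∧ Disjoint N.vars N'.vars

/-- The Gram matrix, an integer matrix computed from the leaves to the root. -/
noncomputable def gram : {w : ℕ} → Net σ w → Fin w → Fin w → ℤ
  | _, leaf L => L.gram
  | _, node M N N' => fun c c' =>
      ∑ a, ∑ b, ∑ a', ∑ b', M c a b * M c' a' b' * N.gram a a' * N'.gram b b'

end Net

end Pool.Agent.Helper12_RN
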