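import Pool.Agent.Helper12_RN.Reduce
import Pool.Agent.Helper12_RN.Block

set_option autoImplicit false

/-! The Gram matrix of a read-once network. -/

namespace Pool.Agent.Helper12_RN

open MvPolynomial

variable {σ : Type}

/-- `G` is the Gram matrix of vectors satisfying the same relations as the polynomials `P`. -/
def Certified {w : ℕ} (P : Fin w → MvPolynomial σ ℤ) (G : Fin w → Fin w → ℤ) : Prop :=
  ∃ (S : Type) (_ : Fintype S) (wt : S → ℚ) (h : Fin w → S → ℚ),
    (∀ s, 0 < wt s) ∧ (∀ u u', (G u u' : ℚ) = ∑ s, wt s * (h u s * h u' s)) ∧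
    ∀ b : Fin w → ℚ, (∀ x : σ → ℚ, ∑ u, b u * aeval x (P u) = 0) ↔ ∀ s, ∑ u, b u * h u s = 0

theorem aeval_congr {P : MvPolynomial σ ℤ} {x y : σ → ℚ} (h : ∀ s ∈ P.vars, x s = y s) :
    aeval x P = aeval y P := by
  rw [aeval_eq_eval₂Hom, aeval_eq_eval₂Hom]
  exact eval₂Hom_congr' rfl (fun s hs _ => h s hs) rfl

theorem eq_zero_iff (P : MvPolynomial σ ℤ) : P = 0 ↔ ∀ x : σ → ℚ, aeval x P = 0 := by
  constructor
  · rintro rfl x; simp
  · intro h
    have h1 : map (Int.castRingHom ℚ) P = 0 := by
      apply MvPolynomial.funext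
      intro x
      rw [map_zero, eval_map]
      have := h x
      rw [aeval_def] at this
      exact this
    exact (map_eq_zero_iff _ (map_injective _ (RingHom.injective_int _))).1 h1

theorem Certified.zero_iff {w : ℕ} {P : Fin w → MvPolynomial σ ℤ} {G : Fin w → Fin w → ℤ}
    (hc : Certified P G) (u : Fin w) : P u = 0 ↔ G u u = 0 := by
  classical
  obtain ⟨S, _, wt, h, hwt, hG, hb⟩ := hc
  have h1 := hb (Pi.single u 1)
  simp only [Pi.single_apply, ite_mul, one_mul, zero_mul, Finset.sum_ite_eq', Finset.mem_univ,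
    if_true] at h1
  rw [eq_zero_iff, h1]
  have h2 : G u u = 0 ↔ (G u u : ℚ) = 0 := by norm_cast
  rw [h2, hG]
  rw [Finset.sum_eq_zero_iff_of_nonneg (fun s _ => mul_nonneg (hwt s).le (mul_self_nonneg _))]
  constructor
  · intro h3 s _; rw [h3 s]; ring
  · intro h3 s
    have h4 := h3 s (Finset.mem_univ s)
    rcases mul_eq_zero.1 h4 with h5 | h5
    · exact absurd h5 (hwt s).ne'
    · exact mul_self_eq_zero.1 h5

/-- A layer. -/
theorem leaf_certified (L : Layer σ ℤ) (hV : L.Lq.Coprime) (ω : (σ →₀ ℕ) → ℚ) (hω : ∀ s, 0 < ω s)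
    (G : Fin L.K → Fin L.K → ℤ) (T : Finset (σ →₀ ℕ)) (hT : ∀ u, (L.h u).support ⊆ T)
    (hG0 : ∀ u u', ¬ L.Same u u' → G u u' = 0)
    (hG1 : ∀ u u', L.Same u u' → (G u u' : ℚ) = ∑ s ∈ T,
      ω s * (((coeff s (L.h u) : ℤ) : ℚ) * ((coeff s (L.h u') : ℤ) : ℚ))) :
    Certified L.g G := by
  classical
  set n : Fin L.K → ℕ := fun u0 => (Finset.univ.filter (L.Same u0)).card with hn
  have hnpos : ∀ u0, (0 : ℚ) < n u0 := by
    intro u0
    rw [Nat.cast_pos]
    exact Finset.card_pos.2 ⟨u0, by simp [L.same_refl]⟩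
  have hneq : ∀ u0 u, L.Same u0 u → n u0 = n u := by
    intro u0 u h
    simp only [hn]
    congr 1
    ext v
    simp only [Finset.mem_filter, Finset.mem_univ, true_and]
    exact ⟨fun h' => L.same_trans (L.same_symm h) h', fun h' => L.same_trans h h'⟩
  refine ⟨Fin L.K × {s // s ∈ T}, inferInstance, fun z => ω z.2 / n z.1,
    fun u z => if L.Same z.1 u then ((coeff z.2.1 (L.h u) : ℤ) : ℚ) else 0,
    fun z => div_pos (hω _) (hnpos _), ?_, ?_⟩
  · intro u u'
    rw [Fintype.sum_prod_type]
    by_cases h : L.Same u u'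
    · rw [hG1 u u' h]
      have e1 : ∀ u0, ∑ s : {s // s ∈ T}, ω s / n u0 *
          ((if L.Same u0 u then ((coeff s.1 (L.h u) : ℤ) : ℚ) else 0) *
            (if L.Same u0 u' then ((coeff s.1 (L.h u') : ℤ) : ℚ) else 0))
          = if L.Same u u0 then (1 / n u : ℚ) * ∑ s ∈ T,
              ω s * (((coeff s (L.h u) : ℤ) : ℚ) * ((coeff s (L.h u') : ℤ) : ℚ)) else 0 := by
        intro u0
        by_cases h0 : L.Same u u0
        · rw [if_pos h0, Finset.mul_sum, ← Finset.sum_coe_sort T]
          apply Finset.sum_congr rfl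
          intro s _
          rw [if_pos (L.same_symm h0), if_pos (L.same_trans (L.same_symm h0) h),
            hneq u0 u (L.same_symm h0)]
          ring
        · rw [if_neg h0]
          apply Finset.sum_eq_zero
          intro s _
          rw [if_neg (fun h' => h0 (L.same_symm h'))]
          ring
      simp only
      rw [Finset.sum_congr rfl (fun u0 _ => e1 u0), ← Finset.sum_filter, Finset.sum_const,
        nsmul_eq_mul, ← mul_assoc]
      have : ((Finset.univ.filter fun u0 => L.Same u u0).card : ℚ) * (1 / n u) = 1 := by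
        have := (hnpos u).ne'
        field_simp
        rfl
      rw [this, one_mul]
    · rw [hG0 u u' h, Int.cast_zero]
      symm
      apply Finset.sum_eq_zero
      intro u0 _
      apply Finset.sum_eq_zero
      intro s _
      by_cases h1 : L.Same u0 u
      · simp only
        rw [if_neg (fun h2 => h (L.same_trans (L.same_symm h1) h2))]
        ring
      · simp only
        rw [if_neg h1]
        ring
  · intro b
    rw [L.reduce_int hV b]
    have e1 : ∀ u0 s, (∑ u, if L.Same u0 u then b u * ((coeff s (L.h u) : ℤ) : ℚ) else 0)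
        = ∑ u, b u * (if L.Same u0 u then ((coeff s (L.h u) : ℤ) : ℚ) else 0) := by
      intro u0 s
      apply Finset.sum_congr rfl
      intro u _
      split_ifs <;> ring
    constructor
    · rintro h ⟨u0, s, hs⟩
      have := h u0 s
      rw [e1] at this
      exact this
    · intro h u0 s
      rw [e1]
      by_cases hs : s ∈ T
      · exact h (u0, ⟨s, hs⟩)
      · apply Finset.sum_eq_zero
        intro u _
        have : coeff s (L.h u) = 0 := notMem_support_iff.1 (fun h' => hs (hT u h'))
        rw [this]; simp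

/-- The bilinear step. -/
theorem node_certified {a b w : ℕ} (M : Fin w → Fin a → Fin b → ℤ)
    (P : Fin a → MvPolynomial σ ℤ) (Q : Fin b → MvPolynomial σ ℤ)
    (G : Fin a → Fin a → ℤ) (H : Fin b → Fin b → ℤ) (V : Set σ)
    (hP : ∀ i, ∀ s ∈ (P i).vars, s ∈ V) (hQ : ∀ i, ∀ s ∈ (Q i).vars, s ∉ V)
    (h1 : Certified P G) (h2 : Certified Q H) :
    Certified (fun c => ∑ i, ∑ j, C (M c i j) * P i * Q j)
      (fun c c' => ∑ i, ∑ j, ∑ i', ∑ j', M c i j * M c' i' j' * G i i' * H j j') := by
  classical
  obtain ⟨S, _, wt, h, hwt, hG, hb⟩ := h1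
  obtain ⟨S', _, wt', h', hwt', hH, hb'⟩ := h2
  refine ⟨S × S', inferInstance, fun z => wt z.1 * wt' z.2,
    fun c z => ∑ i, ∑ j, (M c i j : ℚ) * (h i z.1 * h' j z.2),
    fun z => mul_pos (hwt _) (hwt' _), ?_, ?_⟩
  · intro c c'
    have e1 : ∀ (c : Fin w) (z : S × S'), ∑ i, ∑ j, (M c i j : ℚ) * (h i z.1 * h' j z.2)
        = ∑ i : Fin a × Fin b, (M c i.1 i.2 : ℚ) * (h i.1 z.1 * h' i.2 z.2) := by
      intro c z
      rw [Fintype.sum_prod_type]
    have e2 : ∀ i j i' j', ((G i i' : ℤ) : ℚ) * (H j j' : ℤ)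
        = ∑ z : S × S', (wt z.1 * wt' z.2) * ((h i z.1 * h' j z.2) * (h i' z.1 * h' j' z.2)) := by
      intro i j i' j'
      rw [hG, hH, Finset.sum_mul_sum, Fintype.sum_prod_type]
      apply Finset.sum_congr rfl
      intro s _
      apply Finset.sum_congr rfl
      intro t _
      ring
    have e3 : ((∑ i, ∑ j, ∑ i', ∑ j', M c i j * M c' i' j' * G i i' * H j j' : ℤ) : ℚ)
        = ∑ i : Fin a × Fin b, ∑ i' : Fin a × Fin b, (M c i.1 i.2 : ℚ) * M c' i'.1 i'.2 *
          (((G i.1 i'.1 : ℤ) : ℚ) * (H i.2 i'.2 : ℤ)) := by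
      rw [Fintype.sum_prod_type]
      push_cast
      apply Finset.sum_congr rfl
      intro i _
      apply Finset.sum_congr rfl
      intro j _
      rw [Fintype.sum_prod_type]
      apply Finset.sum_congr rfl
      intro i' _
      apply Finset.sum_congr rfl
      intro j' _
      ring
    rw [e3]
    have e4 : ∀ z : S × S', (wt z.1 * wt' z.2) *
        ((∑ i, ∑ j, (M c i j : ℚ) * (h i z.1 * h' j z.2)) *
          (∑ i, ∑ j, (M c' i j : ℚ) * (h i z.1 * h' j z.2)))
        = ∑ i : Fin a × Fin b, ∑ i' : Fin a × Fin b, (M c i.1 i.2 : ℚ) * M c' i'.1 i'.2 *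
          ((wt z.1 * wt' z.2) * ((h i.1 z.1 * h' i.2 z.2) * (h i'.1 z.1 * h' i'.2 z.2))) := by
      intro z
      rw [e1, e1, Finset.sum_mul_sum, Finset.mul_sum]
      apply Finset.sum_congr rfl
      intro i _
      rw [Finset.mul_sum]
      apply Finset.sum_congr rfl
      intro i' _
      ring
    simp only [e4]
    conv_rhs => rw [Finset.sum_comm]
    apply Finset.sum_congr rfl
    intro i _
    conv_rhs => rw [Finset.sum_comm]
    apply Finset.sum_congr rfl
    intro i' _
    rw [e2, Finset.mul_sum]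
  · intro c
    set N : Fin a → Fin b → ℚ := fun i j => ∑ v, c v * (M v i j : ℚ) with hN
    have hx : ∀ x y : σ → ℚ, ∃ z : σ → ℚ, (∀ i, aeval z (P i) = aeval x (P i)) ∧
        ∀ j, aeval z (Q j) = aeval y (Q j) := by
      intro x y
      refine ⟨fun s => if s ∈ V then x s else y s, ?_, ?_⟩
      · intro i
        exact aeval_congr (fun s hs => if_pos (hP i s hs))
      · intro j
        exact aeval_congr (fun s hs => if_neg (hQ j s hs))
    have e1 : ∀ x : σ → ℚ, ∑ v, c v * aeval x (∑ i, ∑ j, C (M v i j) * P i * Q j)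
        = ∑ i, ∑ j, N i j * aeval x (P i) * aeval x (Q j) := by
      intro x
      have : ∀ v, c v * aeval x (∑ i, ∑ j, C (M v i j) * P i * Q j)
          = ∑ i, ∑ j, c v * (M v i j : ℚ) * aeval x (P i) * aeval x (Q j) := by
        intro v
        rw [map_sum, Finset.mul_sum]
        apply Finset.sum_congr rfl
        intro i _
        rw [map_sum, Finset.mul_sum]
        apply Finset.sum_congr rfl
        intro j _
        rw [map_mul, map_mul, aeval_C]
        simp only [algebraMap_int_eq, eq_intCast]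
        ring
      rw [Finset.sum_congr rfl (fun v _ => this v), Finset.sum_comm]
      apply Finset.sum_congr rfl
      intro i _
      rw [Finset.sum_comm]
      apply Finset.sum_congr rfl
      intro j _
      rw [hN]
      simp only
      rw [Finset.sum_mul, Finset.sum_mul]
    have e2 : (∀ x : σ → ℚ, ∑ v, c v * aeval x (∑ i, ∑ j, C (M v i j) * P i * Q j) = 0) ↔
        ∀ y x : σ → ℚ, ∑ i, (∑ j, N i j * aeval y (Q j)) * aeval x (P i) = 0 := by
      have e3 : ∀ x y : σ → ℚ, ∑ i, (∑ j, N i j * aeval y (Q j)) * aeval x (P i)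
          = ∑ i, ∑ j, N i j * aeval x (P i) * aeval y (Q j) := by
        intro x y
        apply Finset.sum_congr rfl
        intro i _
        rw [Finset.sum_mul]
        apply Finset.sum_congr rfl
        intro j _
        ring
      constructor
      · intro H y x
        obtain ⟨z, hz1, hz2⟩ := hx x y
        have := H z
        rw [e1] at this
        rw [e3, ← this]
        simp only [hz1, hz2]
      · intro H x
        rw [e1, ← e3]
        exact H x x
    rw [e2]
    have e4 : (∀ y x : σ → ℚ, ∑ i, (∑ j, N i j * aeval y (Q j)) * aeval x (P i) = 0) ↔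
        ∀ s, ∀ y : σ → ℚ, ∑ j, (∑ i, N i j * h i s) * aeval y (Q j) = 0 := by
      have e5 : ∀ (y : σ → ℚ) s, ∑ i, (∑ j, N i j * aeval y (Q j)) * h i s
          = ∑ j, (∑ i, N i j * h i s) * aeval y (Q j) := by
        intro y s
        simp only [Finset.sum_mul]
        rw [Finset.sum_comm]
        apply Finset.sum_congr rfl
        intro j _
        apply Finset.sum_congr rfl
        intro i _
        ring
      constructor
      · intro H s y
        rw [← e5]
        exact (hb _).1 (H y) s
      · intro H y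
        refine (hb _).2 (fun s => ?_)
        rw [e5]
        exact H s y
    rw [e4]
    have e6 : ∀ s t, ∑ j, (∑ i, N i j * h i s) * h' j t
        = ∑ v, c v * ∑ i, ∑ j, (M v i j : ℚ) * (h i s * h' j t) := by
      intro s t
      rw [hN]
      simp only [Finset.sum_mul, Finset.mul_sum]
      rw [Finset.sum_comm]
      have : ∀ i, ∑ j, ∑ v, c v * (M v i j : ℚ) * h i s * h' j t
          = ∑ v, ∑ j, c v * ((M v i j : ℚ) * (h i s * h' j t)) := by
        intro i
        rw [Finset.sum_comm]
        apply Finset.sum_congr rfl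
        intro v _
        apply Finset.sum_congr rfl
        intro j _
        ring
      rw [Finset.sum_congr rfl (fun i _ => this i), Finset.sum_comm]
    constructor
    · rintro H ⟨s, t⟩
      rw [← e6]
      exact (hb' _).1 (H s) t
    · intro H s
      refine (hb' _).2 (fun t => ?_)
      rw [e6]
      exact H (s, t)

theorem layer_certified (L : Layer σ ℤ) (hV : L.Valid) : Certified L.g L.gram := by
  classical
  have hpart : ∀ u, L.part u L.B (L.red u) = L.h u := fun u => rfl
  refine leaf_certified L hV.2 (fun _ => 1) (fun _ => one_pos) _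
    (Finset.univ.biUnion fun u => (L.h u).support)
    (fun u => Finset.subset_biUnion_of_mem (fun u => (L.h u).support) (Finset.mem_univ u)) ?_ ?_
  · intro u u' h
    unfold Layer.gram
    rw [if_neg h]
  · intro u u' h
    unfold Layer.gram
    rw [if_pos h, L.gramB_eq hV.1 u u' L.B le_rfl, hpart, hpart,
      inner_eq (L.h u) (L.h u') _ (Finset.subset_biUnion_of_mem (fun u => (L.h u).support)
      (Finset.mem_univ u))]
    push_cast
    apply Finset.sum_congr rfl
    intro s _
    ring

theorem Layer.vars_g (L : Layer σ ℤ) (u : Fin L.K) (s : σ) (hs : s ∈ (L.g u).vars) : s ∈ L.vars := by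
  classical
  obtain ⟨c, hc, hs⟩ := L.vars_part u L.B (L.e u) s hs
  exact ⟨c, hc, hs⟩

theorem Net.vars_poly : ∀ {w : ℕ} (N : Net σ w) (u : Fin w) (s : σ), s ∈ (N.poly u).vars →
    s ∈ N.vars
  | _, .leaf L, u, s, hs => L.vars_g u s hs
  | _, .node M N N', u, s, hs => by
    classical
    simp only [Net.poly] at hs
    obtain ⟨i, _, hi⟩ := Finset.mem_biUnion.1 (vars_sum_subset _ _ hs)
    obtain ⟨j, _, hj⟩ := Finset.mem_biUnion.1 (vars_sum_subset _ _ hi)
    rcases Finset.mem_union.1 (vars_mul _ _ hj) with h | h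
    · rcases Finset.mem_union.1 (vars_mul _ _ h) with h | h
      · rw [vars_C] at h; exact absurd h (Finset.notMem_empty s)
      · exact Or.inl (N.vars_poly i s h)
    · exact Or.inr (N'.vars_poly j s h)

theorem Net.certified : ∀ {w : ℕ} (N : Net σ w), N.ReadOnce → Certified N.poly N.gram
  | _, .leaf L, h => layer_certified L h
  | _, .node M N N', h => by
    refine node_certified M N.poly N'.poly N.gram N'.gram N.vars (fun i s hs => N.vars_poly i s hs)
      (fun i s hs hs' => ?_) (N.certified h.1) (N'.certified h.2.1)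
    exact Set.disjoint_left.1 h.2.2 hs' (N'.vars_poly i s hs)

/-- The identity test. -/
theorem Net.poly_eq_zero_iff {w : ℕ} (N : Net σ w) (h : N.ReadOnce) (u : Fin w) :
    N.poly u = 0 ↔ N.gram u u = 0 :=
  (N.certified h).zero_iff u

end Pool.Agent.Helper12_RN
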