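import Pool.Agent.Helper12_RN.Defs
import Pool.Agent.Helper12_Clust.Reduce

set_option autoImplicit false

/-! Reduction on one layer, with arbitrary combinations. -/

namespace Pool.Agent.Helper12_RN

open MvPolynomial

section field

open Pool.Agent.Helper12_Clust

variable {σ k ι J : Type} [Field k] [Fintype ι] [Fintype J]

theorem clusterOf_eq (A : ι → MvPolynomial σ k) (p : J → MvPolynomial σ k) (e : ι → J → ℕ)
    {i0 i : ι} (h : i ∈ clusterOf A p e i0) : clusterOf A p e i = clusterOf A p e i0 := by
  ext i'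
  rw [mem_clusterOf] at h
  rw [mem_clusterOf, mem_clusterOf]
  exact ⟨fun h' => h.trans h', fun h' => h.symm.trans h'⟩

theorem redExp_eq (A : ι → MvPolynomial σ k) (p : J → MvPolynomial σ k) (e : ι → J → ℕ)
    {i0 i : ι} (h : i ∈ clusterOf A p e i0) (j : J) :
    redExp A p e i0 i j = redExp A p e i i j := by
  unfold redExp
  congr 1
  simp only [clusterOf_eq A p e h]

/-- Degree reduction for all combinations at once. -/
theorem reduce_smul [CharZero k] (A : ι → MvPolynomial σ k) (p : J → MvPolynomial σ k)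
    (e : ι → J → ℕ) (hp : ∀ j, 1 ≤ (p j).totalDegree)
    (hcop : Pairwise fun i j => IsRelPrime (p i) (p j)) (b : ι → k) :
    ∑ i, b i • term A p e i = 0 ↔
      ∀ i0, ∑ i ∈ clusterOf A p e i0, b i • (A i * ∏ j, p j ^ redExp A p e i i j) = 0 := by
  classical
  have hp0 : ∀ j, p j ≠ 0 := by
    intro j h; have := hp j; rw [h, totalDegree_zero] at this; omega
  have hfac : ∀ i0, ∑ i ∈ clusterOf A p e i0, b i • term A p e i
      = (∏ j, p j ^ ((clusterOf A p e i0).inf' (clusterOf_nonempty A p e i0) (fun i' => e i' j)))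
        * ∑ i ∈ clusterOf A p e i0, b i • (A i * ∏ j, p j ^ redExp A p e i i j) := by
    intro i0
    rw [Finset.mul_sum]
    apply Finset.sum_congr rfl
    intro i hi
    rw [mul_smul_comm, term, mul_left_comm, ← Finset.prod_mul_distrib]
    congr 2
    apply Finset.prod_congr rfl
    intro j _
    rw [← pow_add, ← redExp_eq A p e hi]
    congr 1
    rw [redExp]
    have : (clusterOf A p e i0).inf' (clusterOf_nonempty A p e i0) (fun i' => e i' j) ≤ e i j :=
      Finset.inf'_le (fun i' => e i' j) hi
    omega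
  have hfilter : ∀ i0, (Finset.univ.filter fun i => (clusterGraph A p e).connectedComponentMk i
        = (clusterGraph A p e).connectedComponentMk i0) = clusterOf A p e i0 := by
    intro i0
    ext i
    rw [mem_clusterOf]
    simp only [Finset.mem_filter, Finset.mem_univ, true_and]
    rw [SimpleGraph.ConnectedComponent.eq]
    exact ⟨fun h => h.symm, fun h => h.symm⟩
  refine ⟨?_, ?_⟩
  · intro h i0
    have h1 := cluster A p e hp0 hcop (fun i => (clusterGraph A p e).connectedComponentMk i)
      (by
        intro i i' h1 h2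
        by_cases hii : i = i'
        · rw [hii]
        · exact SimpleGraph.ConnectedComponent.sound
            (SimpleGraph.Adj.reachable (G := clusterGraph A p e) ⟨hii, h1, h2⟩))
      _ b rfl h
      ((clusterGraph A p e).connectedComponentMk i0)
    rw [hfilter, hfac] at h1
    exact (mul_eq_zero.1 h1).resolve_left
      (Finset.prod_ne_zero_iff.2 fun j _ => pow_ne_zero _ (hp0 j))
  · intro h
    have h1 : ∀ i0, ∑ i ∈ clusterOf A p e i0, b i • term A p e i = 0 := by
      intro i0; rw [hfac, h i0, mul_zero]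
    have h2 : ∑ i, b i • term A p e i
        = ∑ c ∈ (Finset.univ : Finset ι).image (clusterGraph A p e).connectedComponentMk,
          ∑ i with (clusterGraph A p e).connectedComponentMk i = c, b i • term A p e i :=
      (Finset.sum_fiberwise_of_maps_to (fun i _ => Finset.mem_image_of_mem _ (Finset.mem_univ i))
        _).symm
    rw [h2]
    apply Finset.sum_eq_zero
    intro c hc
    obtain ⟨i0, -, rfl⟩ := Finset.mem_image.1 hc
    rw [hfilter]; exact h1 i0

end field

namespace Layer

section fieldLayer

variable {σ k : Type} [Field k] (L : Layer σ k)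

theorem bound_eq : Helper12_Clust.bound L.cof L.base = L.D := by
  unfold Helper12_Clust.bound D
  simp only [Fintype.card_fin]

theorem close_refl (u : Fin L.K) : L.Close u u := by
  unfold Close gap
  simp

theorem close_symm {u u' : Fin L.K} (h : L.Close u u') : L.Close u' u := ⟨h.2, h.1⟩

theorem adj_iff (u u' : Fin L.K) :
    (Helper12_Clust.clusterGraph L.cof L.base L.e).Adj u u' ↔ u ≠ u' ∧ L.Close u u' := by
  change (u ≠ u' ∧ Helper12_Clust.gap L.base L.e u u' ≤ Helper12_Clust.bound L.cof L.base ∧
    Helper12_Clust.gap L.base L.e u' u ≤ Helper12_Clust.bound L.cof L.base) ↔ _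
  rw [bound_eq]
  rfl

theorem same_iff (u u' : Fin L.K) :
    (Helper12_Clust.clusterGraph L.cof L.base L.e).Reachable u u' ↔ L.Same u u' := by
  rw [SimpleGraph.reachable_iff_reflTransGen]
  constructor
  · intro h
    induction h with
    | refl => exact Relation.ReflTransGen.refl
    | tail _ hbc ih => exact Relation.ReflTransGen.tail ih ((L.adj_iff _ _).1 hbc).2
  · intro h
    induction h with
    | refl => exact Relation.ReflTransGen.refl
    | @tail b c _ hbc ih =>
      by_cases hb : b = c
      · rw [← hb]; exact ih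
      · exact ih.tail ((L.adj_iff b c).2 ⟨hb, hbc⟩)

theorem mem_cluster (u u' : Fin L.K) :
    u' ∈ Helper12_Clust.clusterOf L.cof L.base L.e u ↔ L.Same u u' := by
  rw [Helper12_Clust.mem_clusterOf, same_iff]

end fieldLayer

section gen

variable {σ k : Type} [CommSemiring k] (L : Layer σ k)

theorem same_refl (u : Fin L.K) : L.Same u u := Relation.ReflTransGen.refl

theorem same_symm {u u' : Fin L.K} (h : L.Same u u') : L.Same u' u := by
  induction h with
  | refl => exact L.same_refl u
  | tail _ hbc ih => exact Relation.ReflTransGen.head ⟨hbc.2, hbc.1⟩ ih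

theorem same_trans {u u' u'' : Fin L.K} (h : L.Same u u') (h' : L.Same u' u'') : L.Same u u'' :=
  Relation.ReflTransGen.trans h h'

end gen

section fieldLayer

variable {σ k : Type} [Field k] (L : Layer σ k)

theorem low_eq (u : Fin L.K) (j : Fin L.m) :
    (Helper12_Clust.clusterOf L.cof L.base L.e u).inf'
      (Helper12_Clust.clusterOf_nonempty L.cof L.base L.e u) (fun i' => L.e i' j) = L.low u j := by
  apply le_antisymm
  · have h1 : L.low u j ∈ {x | ∃ u', L.Same u u' ∧ L.e u' j = x} :=
      Nat.sInf_mem ⟨_, u, L.same_refl u, rfl⟩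
    obtain ⟨u', hu', h2⟩ := h1
    rw [← h2]
    exact Finset.inf'_le (fun i' => L.e i' j) ((L.mem_cluster u u').2 hu')
  · obtain ⟨i1, hi1, h1⟩ := Finset.exists_mem_eq_inf'
      (Helper12_Clust.clusterOf_nonempty L.cof L.base L.e u) (fun i' => L.e i' j)
    rw [h1]
    exact Nat.sInf_le ⟨i1, (L.mem_cluster u i1).1 hi1, rfl⟩

theorem red_eq (u : Fin L.K) (j : Fin L.m) :
    Helper12_Clust.redExp L.cof L.base L.e u u j = L.red u j := by
  unfold Helper12_Clust.redExp red
  rw [low_eq]

theorem red_le [CharZero k] (hV : L.Coprime) (u : Fin L.K) (j : Fin L.m) :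
    L.red u j ≤ (L.K - 1) * L.D := by
  have h := (Helper12_Clust.reduce L.cof L.base L.e hV.1 hV.2).2 u u
    ((L.mem_cluster u u).2 (L.same_refl u)) j
  rwa [red_eq, bound_eq, Fintype.card_fin] at h

open Classical in
/-- One layer: all relations at once. -/
theorem reduce [CharZero k] (hV : L.Coprime) (b : Fin L.K → k) :
    (∑ u, b u • L.g u = 0) ↔ ∀ u0, ∑ u with L.Same u0 u, b u • L.h u = 0 := by
  have h := reduce_smul L.cof L.base L.e hV.1 hV.2 b
  have e1 : (∑ u, b u • L.g u = 0) ↔
      ∑ i, b i • Helper12_Clust.term L.cof L.base L.e i = 0 := Iff.rfl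
  rw [e1, h]
  apply forall_congr'
  intro u0
  have : Helper12_Clust.clusterOf L.cof L.base L.e u0 = Finset.univ.filter (L.Same u0) := by
    ext u
    rw [mem_cluster]; simp
  rw [this]
  simp only [red_eq]
  rfl

end fieldLayer

section int

variable {σ : Type} (L : Layer σ ℤ)

theorem totalDegree_map_cast (p : MvPolynomial σ ℤ) :
    (MvPolynomial.map (Int.castRingHom ℚ) p).totalDegree = p.totalDegree := by
  unfold totalDegree
  rw [support_map_of_injective p (RingHom.injective_int _)]

/-- The layer over `ℚ`. -/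
noncomputable abbrev Lq : Layer σ ℚ := L.map (Int.castRingHom ℚ)

theorem cof_map (u : Fin L.K) : L.Lq.cof u = MvPolynomial.map (Int.castRingHom ℚ) (L.cof u) := by
  unfold cof
  rw [map_prod]

theorem base_map (j : Fin L.m) :
    L.Lq.base j = MvPolynomial.map (Int.castRingHom ℚ) (L.base j) := by
  unfold base
  rw [map_sum]

theorem D_map : L.Lq.D = L.D := by
  have h1 : L.Lq.D = (L.K - 1) * (L.K - 2) * (∑ j : Fin L.m, (L.Lq.base j).totalDegree)
    + ∑ u : Fin L.K, (L.Lq.cof u).totalDegree := rfl
  rw [h1]
  unfold D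
  simp only [cof_map, base_map, totalDegree_map_cast]

theorem gap_map (u u' : Fin L.K) : L.Lq.gap u u' = L.gap u u' := by
  have h1 : L.Lq.gap u u' = ∑ j : Fin L.m, (L.e u j - L.e u' j) * (L.Lq.base j).totalDegree := rfl
  rw [h1]
  unfold gap
  simp only [base_map, totalDegree_map_cast]

theorem close_map : L.Lq.Close = L.Close := by
  funext u u'
  have h1 : L.Lq.Close u u' = (L.Lq.gap u u' ≤ L.Lq.D ∧ L.Lq.gap u' u ≤ L.Lq.D) := rfl
  rw [h1, D_map, gap_map, gap_map]
  rfl

theorem same_map (u u' : Fin L.K) : L.Lq.Same u u' ↔ L.Same u u' := by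
  unfold Same
  rw [close_map]

theorem red_map (u : Fin L.K) (j : Fin L.m) : L.Lq.red u j = L.red u j := by
  have h1 : L.Lq.red u j = L.e u j - L.Lq.low u j := rfl
  rw [h1]
  unfold red low
  simp only [same_map]

theorem g_map (u : Fin L.K) : L.Lq.g u = MvPolynomial.map (Int.castRingHom ℚ) (L.g u) := by
  have h1 : L.Lq.g u = L.Lq.cof u * ∏ j : Fin L.m, L.Lq.base j ^ L.e u j := rfl
  rw [h1]
  unfold g
  rw [map_mul, map_prod, cof_map]
  simp only [map_pow, base_map]

theorem h_map (u : Fin L.K) : L.Lq.h u = MvPolynomial.map (Int.castRingHom ℚ) (L.h u) := by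
  have h1 : L.Lq.h u = L.Lq.cof u * ∏ j : Fin L.m, L.Lq.base j ^ L.Lq.red u j := rfl
  rw [h1]
  unfold h
  rw [map_mul, map_prod, cof_map]
  simp only [map_pow, base_map, red_map]

theorem red_le_int (hV : L.Lq.Coprime) (u : Fin L.K) (j : Fin L.m) :
    L.red u j ≤ (L.K - 1) * L.D := by
  have h := L.Lq.red_le hV u j
  rw [red_map, D_map] at h
  exact h

open Classical in
/-- One layer over `ℤ`: all rational relations at once. -/
theorem reduce_int (hV : L.Lq.Coprime) (b : Fin L.K → ℚ) :
    (∀ x : σ → ℚ, ∑ u, b u * aeval x (L.g u) = 0) ↔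
      ∀ u0 s, (∑ u, if L.Same u0 u then b u * ((coeff s (L.h u) : ℤ) : ℚ) else 0) = 0 := by
  have h := L.Lq.reduce hV b
  have e1 : (∀ x : σ → ℚ, ∑ u, b u * aeval x (L.g u) = 0) ↔ ∑ u : Fin L.K, b u • L.Lq.g u = 0 := by
    rw [MvPolynomial.funext_iff]
    apply forall_congr'
    intro x
    rw [map_sum, map_zero]
    have : ∀ u, eval x (b u • L.Lq.g u) = b u * aeval x (L.g u) := by
      intro u
      rw [smul_eval, g_map, eval_map, aeval_def]
      rfl
    simp only [this]
  rw [e1]
  refine h.trans ?_
  apply forall_congr'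
  intro u0
  rw [MvPolynomial.ext_iff]
  apply forall_congr'
  intro s
  rw [coeff_zero, coeff_sum]
  have e2 : ∑ u : Fin L.K with L.Lq.Same u0 u, coeff s (b u • L.Lq.h u)
      = ∑ u, if L.Same u0 u then b u * ((coeff s (L.h u) : ℤ) : ℚ) else 0 := by
    rw [← Finset.sum_filter]
    have : (Finset.univ.filter fun u : Fin L.K => L.Lq.Same u0 u)
        = Finset.univ.filter fun u => L.Same u0 u := by
      ext u
      simp only [Finset.mem_filter, Finset.mem_univ, true_and]
      exact L.same_map u0 u
    rw [this]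
    apply Finset.sum_congr rfl
    intro u _
    rw [coeff_smul, smul_eq_mul, h_map, coeff_map]
    rfl
  rw [← e2]

end int

end Layer

end Pool.Agent.Helper12_RN
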