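import Pool.Agent.Helper12_RN.Main

set_option autoImplicit false

/-! Read-once oblivious algebraic branching programs. -/

namespace Pool.Agent.Helper12_RN

open MvPolynomial Matrix

variable {σ : Type}

theorem Certified.functional {w : ℕ} {P : Fin w → MvPolynomial σ ℤ} {G : Fin w → Fin w → ℤ}
    (hc : Certified P G) (b : Fin w → ℤ) :
    ∑ s, P s * C (b s) = 0 ↔ ∑ s, ∑ s', G s s' * (b s * b s') = 0 := by
  classical
  obtain ⟨S, _, wt, h, hwt, hG, hb⟩ := hc
  have h1 := hb (fun s => (b s : ℚ))
  rw [eq_zero_iff]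
  have e1 : ∀ x : σ → ℚ, aeval x (∑ s, P s * C (b s)) = ∑ u, (b u : ℚ) * aeval x (P u) := by
    intro x
    rw [map_sum]
    apply Finset.sum_congr rfl
    intro s _
    rw [map_mul, aeval_C]
    simp only [algebraMap_int_eq, eq_intCast]
    ring
  simp only [e1]
  rw [h1]
  have h2 : ∑ s, ∑ s', G s s' * (b s * b s') = 0 ↔
      ((∑ s, ∑ s', G s s' * (b s * b s') : ℤ) : ℚ) = 0 := by norm_cast
  rw [h2]
  have e2 : ((∑ s, ∑ s', G s s' * (b s * b s') : ℤ) : ℚ)
      = ∑ z, wt z * ((∑ u, (b u : ℚ) * h u z) * (∑ u, (b u : ℚ) * h u z)) := by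
    push_cast
    have : ∀ z, wt z * ((∑ u, (b u : ℚ) * h u z) * (∑ u, (b u : ℚ) * h u z))
        = ∑ s, ∑ s', (wt z * (h s z * h s' z)) * ((b s : ℚ) * b s') := by
      intro z
      rw [Finset.sum_mul_sum, Finset.mul_sum]
      apply Finset.sum_congr rfl
      intro s _
      rw [Finset.mul_sum]
      apply Finset.sum_congr rfl
      intro s' _
      ring
    simp only [this]
    conv_rhs => rw [Finset.sum_comm]
    apply Finset.sum_congr rfl
    intro s _
    conv_rhs => rw [Finset.sum_comm]
    apply Finset.sum_congr rfl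
    intro s' _
    rw [hG, Finset.sum_mul]
  rw [e2, Finset.sum_eq_zero_iff_of_nonneg (fun s _ => mul_nonneg (hwt s).le (mul_self_nonneg _))]
  constructor
  · intro h3 s _; rw [h3 s]; ring
  · intro h3 s
    rcases mul_eq_zero.1 (h3 s (Finset.mem_univ s)) with h5 | h5
    · exact absurd h5 (hwt s).ne'
    · exact mul_self_eq_zero.1 h5

/-- The transition matrix of a layer. -/
noncomputable def trans {w : ℕ} (L : Layer σ ℤ) (M : Fin L.K → Matrix (Fin w) (Fin w) ℤ) :
    Matrix (Fin w) (Fin w) (MvPolynomial σ ℤ) :=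
  ∑ u, L.g u • (M u).map C

/-- The Gram transition matrix of a layer. -/
noncomputable def transG {w : ℕ} (L : Layer σ ℤ) (M : Fin L.K → Matrix (Fin w) (Fin w) ℤ) :
    Matrix (Fin w × Fin w) (Fin w × Fin w) ℤ :=
  ∑ u, ∑ u', L.gram u u' • Matrix.kroneckerMap (· * ·) (M u) (M u')

theorem row_certified {w : ℕ} (a : Fin w → ℤ) : ∀ {n : ℕ} (L : Fin n → Layer σ ℤ)
    (_ : ∀ B, (L B).Valid)
    (_ : Pairwise fun B B' => Disjoint (L B).vars (L B').vars)
    (M : ∀ B, Fin (L B).K → Matrix (Fin w) (Fin w) ℤ),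
    Certified ((fun s => C (a s)) ᵥ* (List.ofFn fun B => trans (L B) (M B)).prod)
      (fun t t' => ((fun x : Fin w × Fin w => a x.1 * a x.2) ᵥ*
        (List.ofFn fun B => transG (L B) (M B)).prod) (t, t')) ∧
    ∀ t, ∀ s ∈ (((fun s => C (a s)) ᵥ* (List.ofFn fun B => trans (L B) (M B)).prod) t).vars,
      ∃ B, s ∈ (L B).vars
  | 0, L, _, _, M => by
    classical
    rw [List.ofFn_zero, List.prod_nil, Matrix.vecMul_one, List.ofFn_zero, List.prod_nil,
      Matrix.vecMul_one]
    refine ⟨⟨Unit, inferInstance, fun _ => 1, fun u _ => a u, fun _ => one_pos, ?_, ?_⟩, ?_⟩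
    · intro u u'
      simp
    · intro b
      have : ∀ (x : σ → ℚ) (u : Fin w), aeval x (C (a u) : MvPolynomial σ ℤ) = (a u : ℚ) := by
        intro x u
        rw [aeval_C]
        simp only [algebraMap_int_eq, eq_intCast]
      simp only [this]
      exact ⟨fun h _ => h 0, fun h _ => h ()⟩
    · intro t s hs
      rw [vars_C] at hs
      exact absurd hs (Finset.notMem_empty s)
  | n + 1, L, hV, hd, M => by
    classical
    obtain ⟨h1, h2⟩ := row_certified a (fun B : Fin n => L B.castSucc) (fun B => hV _)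
      (fun B B' hB => hd (fun h => hB (Fin.castSucc_injective n h)))
      (fun B => M B.castSucc)
    set P := (fun s => C (a s)) ᵥ* (List.ofFn fun B : Fin n =>
      trans (L B.castSucc) (M B.castSucc)).prod with hP
    set G := (fun x : Fin w × Fin w => a x.1 * a x.2) ᵥ*
        (List.ofFn fun B : Fin n => transG (L B.castSucc) (M B.castSucc)).prod with hG
    have e1 : (fun s => C (a s)) ᵥ* (List.ofFn fun B => trans (L B) (M B)).prod
        = P ᵥ* trans (L (Fin.last n)) (M (Fin.last n)) := by
      rw [List.ofFn_succ', List.concat_eq_append, List.prod_append, List.prod_singleton,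
        ← Matrix.vecMul_vecMul]
    have e2 : (fun x : Fin w × Fin w => a x.1 * a x.2) ᵥ*
        (List.ofFn fun B => transG (L B) (M B)).prod
        = G ᵥ* transG (L (Fin.last n)) (M (Fin.last n)) := by
      rw [List.ofFn_succ', List.concat_eq_append, List.prod_append, List.prod_singleton,
        ← Matrix.vecMul_vecMul]
    rw [e1, e2]
    set L0 := L (Fin.last n) with hL0
    set M0 : Fin L0.K → Matrix (Fin w) (Fin w) ℤ := M (Fin.last n) with hM0
    have h3 := node_certified (fun (c : Fin w) (i : Fin w) (j : Fin L0.K) => M0 j i c) P L0.g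
      (fun t t' => G (t, t')) L0.gram {s | ∃ B : Fin n, s ∈ (L B.castSucc).vars}
      (fun i s hs => h2 i s hs)
      (by
        rintro i s hs ⟨B, hB⟩
        exact Set.disjoint_left.1 (hd (Fin.castSucc_lt_last B).ne) hB (L0.vars_g i s hs))
      h1 (layer_certified L0 (hV _))
    have e3 : (P ᵥ* trans L0 M0) = fun c => ∑ i, ∑ j, C (M0 j i c) * P i * L0.g j := by
      funext c
      rw [Matrix.vecMul, dotProduct]
      apply Finset.sum_congr rfl
      intro i _
      rw [trans, Matrix.sum_apply, Finset.mul_sum]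
      apply Finset.sum_congr rfl
      intro j _
      rw [Matrix.smul_apply, Matrix.map_apply, smul_eq_mul]
      ring
    have e4 : (fun t t' => (G ᵥ* transG L0 M0) (t, t'))
        = fun c c' => ∑ i, ∑ j, ∑ i', ∑ j', M0 j i c * M0 j' i' c' * G (i, i') * L0.gram j j' := by
      funext c c'
      rw [Matrix.vecMul, dotProduct, Fintype.sum_prod_type]
      apply Finset.sum_congr rfl
      intro i _
      have : ∀ i', G (i, i') * transG L0 M0 (i, i') (c, c')
          = ∑ j, ∑ j', M0 j i c * M0 j' i' c' * G (i, i') * L0.gram j j' := by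
        intro i'
        rw [transG, Matrix.sum_apply, Finset.mul_sum]
        apply Finset.sum_congr rfl
        intro j _
        rw [Matrix.sum_apply, Finset.mul_sum]
        apply Finset.sum_congr rfl
        intro j' _
        rw [Matrix.smul_apply, Matrix.kroneckerMap_apply, smul_eq_mul]
        ring
      rw [Finset.sum_congr rfl (fun i' _ => this i'), Finset.sum_comm]
    refine ⟨?_, ?_⟩
    · rw [e3, e4]
      exact h3
    · intro t s hs
      rw [e3] at hs
      obtain ⟨i, _, hi⟩ := Finset.mem_biUnion.1 (vars_sum_subset _ _ hs)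
      obtain ⟨j, _, hj⟩ := Finset.mem_biUnion.1 (vars_sum_subset _ _ hi)
      rcases Finset.mem_union.1 (vars_mul _ _ hj) with h | h
      · rcases Finset.mem_union.1 (vars_mul _ _ h) with h | h
        · rw [vars_C] at h; exact absurd h (Finset.notMem_empty s)
        · obtain ⟨B, hB⟩ := h2 i s h
          exact ⟨_, hB⟩
      · exact ⟨Fin.last n, L0.vars_g j s h⟩

/-- The identity test for read-once oblivious branching programs of arbitrary width. -/
theorem roabp {w n : ℕ} (L : Fin n → Layer σ ℤ) (hV : ∀ B, (L B).Valid)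
    (hd : Pairwise fun B B' => Disjoint (L B).vars (L B').vars)
    (M : ∀ B, Fin (L B).K → Matrix (Fin w) (Fin w) ℤ) (a b : Fin w → ℤ) :
    (fun s => C (a s)) ᵥ* (List.ofFn fun B => trans (L B) (M B)).prod ⬝ᵥ (fun s => C (b s)) = 0 ↔
      (fun x : Fin w × Fin w => a x.1 * a x.2) ᵥ* (List.ofFn fun B => transG (L B) (M B)).prod ⬝ᵥ
        (fun x : Fin w × Fin w => b x.1 * b x.2) = 0 := by
  have h := (row_certified a L hV hd M).1.functional b
  rw [dotProduct, h, dotProduct, Fintype.sum_prod_type]

end Pool.Agent.Helper12_RN
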