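import Pool.Agent.Helper12_RN.Reduce

set_option autoImplicit false

/-! Degree reduction for arbitrary sums of products over blocks of variables. -/

namespace Pool.Agent.Helper12_RN

open MvPolynomial

open Classical in
/-- Kernels of tensor products depend only on the kernels of the factors. -/
theorem tensor_fun {k β : Type} [CommRing k] [Fintype β] [DecidableEq β] {ι X Y : β → Type}
    [∀ B, Fintype (ι B)] (G : ∀ B, ι B → X B → k) (H : ∀ B, ι B → Y B → k)
    (hGH : ∀ B (b : ι B → k), (∀ x, ∑ u, b u * G B u x = 0) ↔ ∀ y, ∑ u, b u * H B u y = 0)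
    [∀ B, Nonempty (X B)] [∀ B, Nonempty (Y B)]
    (c : (∀ B, ι B) → k) :
    (∀ x : ∀ B, X B, ∑ v, c v * ∏ B, G B (v B) (x B) = 0) ↔
      ∀ y : ∀ B, Y B, ∑ v, c v * ∏ B, H B (v B) (y B) = 0 := by
  set T : Finset β → (∀ B, X B) → (∀ B, Y B) → (∀ B, ι B) → β → k := fun S x y v B =>
    if B ∈ S then H B (v B) (y B) else G B (v B) (x B) with hT
  set b : Finset β → (∀ B, X B) → (∀ B, Y B) → (B0 : β) → ι B0 → k := fun S x y B0 u =>
    ∑ v with v B0 = u, c v * ∏ B ∈ Finset.univ.erase B0, T S x y v B with hb
  have hsplit : ∀ S x y B0 (f : (∀ B, ι B) → k) (F : ι B0 → k), (∀ v, f v = F (v B0)) →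
      ∑ v, c v * (f v * ∏ B ∈ Finset.univ.erase B0, T S x y v B) = ∑ u, b S x y B0 u * F u := by
    intro S x y B0 f F hf
    rw [hb]
    simp only [Finset.sum_mul]
    rw [Finset.sum_comm' (t' := Finset.univ) (s' := fun v => {v B0})]
    · apply Finset.sum_congr rfl
      intro v _
      rw [Finset.sum_singleton, hf]
      ring
    · intro u v
      simp [eq_comm]
  have hstep : ∀ (S : Finset β) (B0 : β), B0 ∉ S →
      ((∀ x y, ∑ v, c v * ∏ B, T S x y v B = 0) ↔
        ∀ x y, ∑ v, c v * ∏ B, T (insert B0 S) x y v B = 0) := by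
    intro S B0 hB0
    have e1 : ∀ x y, ∑ v, c v * ∏ B, T S x y v B = ∑ u, b S x y B0 u * G B0 u (x B0) := by
      intro x y
      rw [← hsplit S x y B0 (fun v => G B0 (v B0) (x B0)) _ (fun v => rfl)]
      apply Finset.sum_congr rfl
      intro v _
      rw [← Finset.mul_prod_erase Finset.univ _ (Finset.mem_univ B0)]
      simp only [hT]
      rw [if_neg hB0]
    have e2 : ∀ x y, ∑ v, c v * ∏ B, T (insert B0 S) x y v B
        = ∑ u, b S x y B0 u * H B0 u (y B0) := by
      intro x y
      rw [← hsplit S x y B0 (fun v => H B0 (v B0) (y B0)) _ (fun v => rfl)]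
      apply Finset.sum_congr rfl
      intro v _
      rw [← Finset.mul_prod_erase Finset.univ _ (Finset.mem_univ B0)]
      simp only [hT]
      rw [if_pos (Finset.mem_insert_self _ _)]
      congr 2
      apply Finset.prod_congr rfl
      intro B hB
      have : B ≠ B0 := Finset.ne_of_mem_erase hB
      by_cases hBS : B ∈ S
      · rw [if_pos (Finset.mem_insert_of_mem hBS), if_pos hBS]
      · rw [if_neg (fun h => (Finset.mem_insert.1 h).elim this hBS), if_neg hBS]
    have e3 : ∀ x y x0, b S (Function.update x B0 x0) y B0 = b S x y B0 := by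
      intro x y x0
      funext u
      rw [hb]
      apply Finset.sum_congr rfl
      intro v _
      congr 1
      apply Finset.prod_congr rfl
      intro B hB
      simp only [hT]
      rw [Function.update_of_ne (Finset.ne_of_mem_erase hB)]
    have e4 : ∀ x y y0, b S x (Function.update y B0 y0) B0 = b S x y B0 := by
      intro x y y0
      funext u
      rw [hb]
      apply Finset.sum_congr rfl
      intro v _
      congr 1
      apply Finset.prod_congr rfl
      intro B hB
      simp only [hT]
      rw [Function.update_of_ne (Finset.ne_of_mem_erase hB)]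
    constructor
    · intro h x y
      rw [e2]
      refine (hGH B0 (b S x y B0)).1 (fun x0 => ?_) (y B0)
      have := h (Function.update x B0 x0) y
      rw [e1, e3, Function.update_self] at this
      exact this
    · intro h x y
      rw [e1]
      refine (hGH B0 (b S x y B0)).2 (fun y0 => ?_) (x B0)
      have := h x (Function.update y B0 y0)
      rw [e2, e4, Function.update_self] at this
      exact this
  have hall : ∀ S : Finset β, (∀ x y, ∑ v, c v * ∏ B, T ∅ x y v B = 0) ↔
      ∀ x y, ∑ v, c v * ∏ B, T S x y v B = 0 := by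
    intro S
    induction S using Finset.induction_on with
    | empty => exact Iff.rfl
    | insert B S hB ih => exact ih.trans (hstep S B hB)
  have h1 := hall Finset.univ
  have f1 : (∀ (x : ∀ B, X B) (y : ∀ B, Y B), ∑ v, c v * ∏ B, T ∅ x y v B = 0) ↔
      ∀ x : ∀ B, X B, ∑ v, c v * ∏ B, G B (v B) (x B) = 0 := by
    have : ∀ x y v B, T ∅ x y v B = G B (v B) (x B) := by
      intro x y v B
      simp only [hT]
      rw [if_neg (Finset.notMem_empty B)]
    simp only [this]
    exact ⟨fun h x => h x (fun B => Classical.arbitrary _), fun h x _ => h x⟩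
  have f2 : (∀ (x : ∀ B, X B) (y : ∀ B, Y B), ∑ v, c v * ∏ B, T Finset.univ x y v B = 0) ↔
      ∀ y : ∀ B, Y B, ∑ v, c v * ∏ B, H B (v B) (y B) = 0 := by
    have : ∀ x y v B, T Finset.univ x y v B = H B (v B) (y B) := by
      intro x y v B
      simp only [hT]
      rw [if_pos (Finset.mem_univ B)]
    simp only [this]
    exact ⟨fun h y => h (fun B => Classical.arbitrary _) y, fun h _ y => h y⟩
  rw [← f1, ← f2]
  exact h1

/-- Gluing points. -/
theorem glue {k σ β : Type} [CommRing k] (V : β → Set σ)
    (hV : Pairwise fun B B' => Disjoint (V B) (V B')) (x : β → σ → k) :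
    ∃ z : σ → k, ∀ B, ∀ P : MvPolynomial σ k, (∀ s ∈ P.vars, s ∈ V B) →
      eval z P = eval (x B) P := by
  classical
  refine ⟨fun s => if h : ∃ B, s ∈ V B then x h.choose s else 0, ?_⟩
  intro B P hP
  refine eval₂Hom_congr' rfl (fun s hs _ => ?_) rfl
  have h : ∃ B, s ∈ V B := ⟨B, hP s hs⟩
  rw [dif_pos h]
  have : h.choose = B := by
    by_contra hne
    exact Set.disjoint_left.1 (hV hne) h.choose_spec (hP s hs)
  rw [this]

theorem Layer.vars_cof {σ k : Type} [CommSemiring k] (L : Layer σ k) (u : Fin L.K) (s : σ)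
    (hs : s ∈ (L.cof u).vars) : s ∈ L.vars := by
  classical
  obtain ⟨c, hc, hc'⟩ := Finset.mem_biUnion.1 (vars_prod _ hs)
  exact ⟨c, Nat.lt_succ_iff.1 (Finset.mem_range.1 hc), Or.inl ⟨u, hc'⟩⟩

theorem Layer.vars_base {σ k : Type} [CommSemiring k] (L : Layer σ k) (j : Fin L.m) (s : σ)
    (hs : s ∈ (L.base j).vars) : s ∈ L.vars := by
  classical
  obtain ⟨c, hc, hc'⟩ := Finset.mem_biUnion.1 (vars_sum_subset _ _ hs)
  exact ⟨c, Nat.lt_succ_iff.1 (Finset.mem_range.1 hc), Or.inr ⟨j, hc'⟩⟩

theorem Layer.vars_term {σ k : Type} [CommSemiring k] (L : Layer σ k) (u : Fin L.K)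
    (r : Fin L.m → ℕ) (s : σ) (hs : s ∈ (L.cof u * ∏ j, L.base j ^ r j).vars) : s ∈ L.vars := by
  classical
  rcases Finset.mem_union.1 (vars_mul _ _ hs) with h | h
  · exact L.vars_cof u s h
  · obtain ⟨j, _, hj⟩ := Finset.mem_biUnion.1 (vars_prod _ h)
    exact L.vars_base j s (vars_pow _ _ hj)

open Classical in
/-- Degree reduction for arbitrary combinations of products over blocks of variables. -/
theorem tensor {k σ : Type} [Field k] [CharZero k] {n : ℕ} (L : Fin n → Layer σ k)
    (hcop : ∀ B, (L B).Coprime) (hdisj : Pairwise fun B B' => Disjoint (L B).vars (L B').vars)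
    (c : (∀ B, Fin (L B).K) → k) :
    (∑ v, C (c v) * ∏ B, (L B).g (v B) = 0) ↔
      ∀ v0 : ∀ B, Fin (L B).K,
        ∑ v with ∀ B, (L B).Same (v0 B) (v B), C (c v) * ∏ B, (L B).h (v B) = 0 := by
  by_cases hne : ∃ B, (L B).K = 0
  · -- no terms at all
    obtain ⟨B, hB⟩ := hne
    have hemp : IsEmpty (∀ B, Fin (L B).K) := ⟨fun v => by
      have := (v B).2
      omega⟩
    constructor
    · intro _ v0
      exact (hemp.false v0).elim
    · intro _
      rw [Finset.univ_eq_empty, Finset.sum_empty]
  push Not at hne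
  have : ∀ B, Nonempty (Fin (L B).K) := fun B => ⟨⟨0, Nat.pos_of_ne_zero (hne B)⟩⟩
  have key := tensor_fun (k := k) (β := Fin n) (ι := fun B => Fin (L B).K)
    (X := fun _ => σ → k) (Y := fun B => Fin (L B).K × (σ → k))
    (fun B u x => eval x ((L B).g u))
    (fun B u y => if (L B).Same y.1 u then eval y.2 ((L B).h u) else 0)
    (by
      intro B b
      have h1 := (L B).reduce (hcop B) b
      have e1 : (∀ x : σ → k, ∑ u, b u * eval x ((L B).g u) = 0) ↔ ∑ u, b u • (L B).g u = 0 := by
        rw [MvPolynomial.funext_iff]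
        apply forall_congr'
        intro x
        rw [map_sum, map_zero]
        simp only [smul_eval]
      rw [e1, h1]
      constructor
      · rintro h ⟨u0, x⟩
        have h2 := congrArg (eval x) (h u0)
        rw [map_sum, map_zero] at h2
        refine Eq.trans ?_ h2
        rw [Finset.sum_filter]
        apply Finset.sum_congr rfl
        intro u _
        by_cases hs : (L B).Same u0 u
        · rw [if_pos hs, if_pos hs, smul_eval]
        · rw [if_neg hs, if_neg hs, mul_zero]
      · intro h u0
        apply MvPolynomial.funext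
        intro x
        have h2 := h (u0, x)
        rw [map_sum, map_zero]
        refine Eq.trans ?_ h2
        rw [Finset.sum_filter]
        apply Finset.sum_congr rfl
        intro u _
        by_cases hs : (L B).Same u0 u
        · rw [if_pos hs, if_pos hs, smul_eval]
        · rw [if_neg hs, if_neg hs, mul_zero]) c
  have e1 : (∑ v, C (c v) * ∏ B, (L B).g (v B) = 0) ↔
      ∀ x : Fin n → (σ → k), ∑ v, c v * ∏ B, eval (x B) ((L B).g (v B)) = 0 := by
    rw [MvPolynomial.funext_iff]
    have e2 : ∀ z : σ → k, eval z (∑ v, C (c v) * ∏ B, (L B).g (v B))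
        = ∑ v, c v * ∏ B, eval z ((L B).g (v B)) := by
      intro z
      rw [map_sum]
      apply Finset.sum_congr rfl
      intro v _
      rw [map_mul, eval_C, map_prod]
    constructor
    · intro h x
      obtain ⟨z, hz⟩ := glue (fun B => (L B).vars) hdisj x
      have h1 := h z
      rw [e2, map_zero] at h1
      refine Eq.trans ?_ h1
      apply Finset.sum_congr rfl
      intro v _
      congr 1
      apply Finset.prod_congr rfl
      intro B _
      exact (hz B ((L B).g (v B)) (fun s hs => (L B).vars_term (v B) ((L B).e (v B)) s hs)).symm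
    · intro h z
      rw [e2, map_zero]
      exact h (fun _ => z)
  refine e1.trans (key.trans ?_)
  constructor
  · intro h v0
    apply MvPolynomial.funext
    intro z
    have h1 := h (fun B => (v0 B, z))
    rw [map_zero]
    refine Eq.trans ?_ h1
    rw [map_sum, Finset.sum_filter]
    apply Finset.sum_congr rfl
    intro v _
    by_cases hv : ∀ B, (L B).Same (v0 B) (v B)
    · rw [if_pos hv, map_mul, eval_C, map_prod]
      congr 1
      apply Finset.prod_congr rfl
      intro B _
      rw [if_pos (hv B)]
    · rw [if_neg hv]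
      push Not at hv
      obtain ⟨B, hB⟩ := hv
      rw [Finset.prod_eq_zero (Finset.mem_univ B), mul_zero]
      rw [if_neg hB]
  · intro h y
    obtain ⟨z, hz⟩ := glue (fun B => (L B).vars) hdisj (fun B => (y B).2)
    have h1 := congrArg (eval z) (h (fun B => (y B).1))
    rw [map_zero, map_sum, Finset.sum_filter] at h1
    refine Eq.trans ?_ h1
    apply Finset.sum_congr rfl
    intro v _
    by_cases hv : ∀ B, (L B).Same (y B).1 (v B)
    · rw [if_pos hv, map_mul, eval_C, map_prod]
      congr 1
      apply Finset.prod_congr rfl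
      intro B _
      rw [if_pos (hv B)]
      exact (hz B ((L B).h (v B)) (fun s hs => (L B).vars_term (v B) ((L B).red (v B)) s hs)).symm
    · rw [if_neg hv]
      push Not at hv
      obtain ⟨B, hB⟩ := hv
      rw [Finset.prod_eq_zero (Finset.mem_univ B), mul_zero]
      rw [if_neg hB]

end Pool.Agent.Helper12_RN
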